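import Pool.Agent.U121.SI.Sum
import Pool.Agent.U121.SI.Asym

/-!
# 3SUM-Indexing: quadratic space, if the joint memory is computed by circuits of constant depth

Two arrays `A`, `B` of `n` numbers from `0, …, n ^ 2` are preprocessed. The memory has `s` joint
cells of `w` bits, and in addition an unlimited memory with arbitrary functions of `A` alone and of
`B` alone. The bits of the joint cells are computed by a circuit with at most `M` gates (NOT, and AND
and OR with unbounded fan-in) in depth at most `h`, whose inputs are arbitrary predicates of single
entries of `A` or of `B`; for instance the table of all answers is computed in depth two. A query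
makes at most `T` adaptive probes (joint cells, or words of `w` bits of the one-sided memory) and
decides whether `z` is the sum of an entry of `A` and an entry of `B`; the computation of the query
is free and not uniform, and everything may be random, with error probability at most `1 / 1000`. We
show

  `n ^ 2 ≤ 10 ^ 10 * T ^ 2 * w ^ 3 * s * (24 σ) ^ (2 h + 2)`, if `h * M * n ^ 2 ≤ 2 ^ σ`,

for all `n ≥ 1000 w T`. So for constant `h`, polylogarithmic `T` and `w` and quasipolynomial `M` the
space is `Ω~(n ^ 2)`, as in the conjecture.

Proof. The arrays consist of `k` blocks of `m` entries, `m` of the order `w T`, `k m` of the order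
`n`, with independent random contents, and there are `k ^ 2` queries which ask whether the block `i`
of `A` and the block `j` of `B` meet. Choose two random contents for every block, and consider a bit
of the memory as a function of the `2 k` bits which select one of the two contents for every block.
It is computed by the same circuit, so by the switching lemma the mean number of pairs `(i, j)` of
blocks such that the memory bit is sensitive to both selection bits is at most `(24 σ) ^ (2 h + 2)`. If in
the square given by the two contents of the blocks `i` and `j` no corner is sensitive in both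
directions, then the bit at one corner is determined by the other three, two of which depend on one
of the two contents only. So for most pairs `(i, j)` all bits of all joint cells together may be
replaced by functions of two bits which the owners of the two blocks can compute, except with a
small probability; hence adaptive probes do not help, and the query gives a protocol with `2 w T`
bits. By the theorem of Babai, Frankl and Simon, which is proved for these contents, such a protocol
errs with probability at least `3 / 1024`.
-/

set_option autoImplicit false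

namespace Pool.Agent.Results.MP_e016b3_lc.ConstantDepthMemory

open Pool.Agent.U121.SI

/-- There is a random data structure for 3SUM-Indexing on arrays of `n` numbers at most `n ^ 2`, with
`s` joint cells of `w` bits, which are computed by circuits with at most `M` gates in depth at most
`h`, with at most `T` probes and error probability at most `1 / 1000`. -/
def Solvable (n w s M h T : ℕ) : Prop :=
  ∃ (Ω : Type) (_ : Fintype Ω) (p : Ω → ℝ) (D : Ω → DS n w s), (∀ ω, 0 ≤ p ω) ∧ ∑ ω, p ω = 1 ∧
    (∀ ω, (D ω).Bounded M h T) ∧ Solves p D

/-- (1) The explicit bound. (2) For a constant depth `h`, word length and query time at most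
`(log n) ^ c` and circuits with at most `2 ^ ((log n) ^ c)` gates, the space is at least
`n ^ 2 / (K * (log n) ^ C)` for all large `n`. -/
theorem result :
    (∀ n w s T M h σ : ℕ, 1 ≤ w → 1 ≤ T → 1000 * (w * T) ≤ n → 1 ≤ σ → h * (M * n ^ 2) ≤ 2 ^ σ →
      Solvable n w s M h T →
      (n : ℝ) ^ 2 ≤ 10 ^ 10 * T ^ 2 * w ^ 3 * s * (24 * σ) ^ (2 * h + 2)) ∧
    ∀ h c : ℕ, ∃ K C n₀ : ℕ, ∀ n w s T M : ℕ, n₀ ≤ n → 1 ≤ w → w ≤ (Nat.log 2 n) ^ c →
      1 ≤ T → T ≤ (Nat.log 2 n) ^ c → M ≤ 2 ^ (Nat.log 2 n) ^ c → Solvable n w s M h T →
      (n : ℝ) ^ 2 ≤ K * (s * (Nat.log 2 n : ℝ) ^ C) := by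
  have h1 : ∀ n w s T M h σ : ℕ, 1 ≤ w → 1 ≤ T → 1000 * (w * T) ≤ n → 1 ≤ σ →
      h * (M * n ^ 2) ≤ 2 ^ σ → Solvable n w s M h T →
      (n : ℝ) ^ 2 ≤ 10 ^ 10 * T ^ 2 * w ^ 3 * s * (24 * σ) ^ (2 * h + 2) := by
    rintro n w s T M h σ hw hT hn hσ hM ⟨Ω, _, p, D, hp, hp1, hD, hs⟩
    exact sum_main hw hT hn hσ hM p hp hp1 D hD hs
  refine ⟨h1, fun h c => ?_⟩
  obtain ⟨n₀, hn₀⟩ := log_small (c + c)
  refine ⟨10 ^ 10 * (24 * (h + 6)) ^ (2 * h + 2), 5 * c + (c + 1) * (2 * h + 2), n₀, ?_⟩
  intro n w s T M hn hw hw' hT hT' hM hS
  obtain ⟨hl, hn'⟩ := hn₀ n hn
  refine polylog hl hw' hT' ?_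
  have h2 := h1 n w s T M h (sg h c (Nat.log 2 n)) hw hT ?_ ?_ (sg_cond hM) hS
  · exact_mod_cast h2
  · refine le_trans ?_ hn'
    apply Nat.mul_le_mul_left
    rw [pow_add]
    exact Nat.mul_le_mul hw' hT'
  · unfold sg
    omega

end Pool.Agent.Results.MP_e016b3_lc.ConstantDepthMemory
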