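import Pool.Agent.U593.FM.Sum

/-!
# 3SUM-Indexing: quadratic total formula size of the joint memory

Two arrays `A`, `B` of `n` numbers from `0, …, n ^ 2` are preprocessed. The memory has `s` joint
cells of `w` bits, and in addition an unlimited memory with arbitrary functions of `A` alone and of
`B` alone. Every bit of a joint cell is computed from the arrays by a de Morgan formula (binary AND
and OR gates), whose leaves are predicates of single entries, or more generally functions with
certificates of at most `d` entries (for instance: the values of arbitrary procedures which read at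
most `d` entries adaptively). A query makes at most `T` adaptive probes (joint cells, or words of `w`
bits of the one-sided memory) and decides whether `z` is the sum of an entry of `A` and an entry of
`B`; the computation of the query is free and not uniform, and everything may be random, with error
probability at most `1 / 1000`. We show for all `n ≥ 1000 w T` that the total number `L` of leaves of
the formulas of all joint cells together (its mean, for random structures) satisfies

  `n ^ 2 ≤ 10 ^ 10 * (w * T * d) ^ 2 * L`.

So `s` joint cells whose bits have formulas with at most `ℓ` leaves need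
`s * ℓ ≥ n ^ 2 / (10 ^ 10 * w ^ 3 * (T d) ^ 2)`: for polylogarithmic `w`, `T`, `d` the space is
`Ω~(n ^ 2 / ℓ)`. (A formula with `ℓ` leaves may entangle `ℓ ^ 2 / 4` pairs of entries, so the
starting file `EntangledBlocks` gives `Ω~(n ^ 2 / ℓ ^ 2)`, and for the total size of the formulas
only `Ω~(n)`.)

Proof. The frame is that of `ConstantDepthMemory` (helper121): the arrays consist of `k` blocks, with
independent random contents, and there are `k ^ 2` queries which ask whether the block `i` of `A` and
the block `j` of `B` meet. Choose two random contents for every block, and consider a bit of the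
memory as a function `f` of the `2 k` bits which select one of the two contents for every block. If
the bit is not sensitive to both `i` and `j` then it may be replaced by a function of two bits which
the owners of the two blocks can compute, and the theorem of Babai, Frankl and Simon shows that for
every pair `(i, j)` some bit must be sensitive with constant probability. It remains to bound the
mean number of pairs to which a bit is sensitive, which is at most the mean square of the sensitivity
of `f`. Here we use in place of the switching lemma the matrix `M` of the sensitivity graph of `f`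
(rows: zeros, columns: ones, entry `1` if the inputs differ in one bit). The mean square of the
sensitivity is at most the square of the norm of `M`: take the sensitivity itself as a vector. For
the conjunction of two formulas the rows split into the zeros of the first formula and the remaining
zeros of the second, and for the disjunction the columns split, so the squares of the norms are
subadditive (Koutsoupias), and for a leaf the norm is at most `d`. So the mean number of sensitive
pairs is at most `d ^ 2` times the number of leaves.
-/

set_option autoImplicit false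

namespace Pool.Agent.Results.MP_e016b3_lc.FormulaMemory

open Pool.Agent.U593.FM

/-- There is a random data structure for 3SUM-Indexing on arrays of `n` numbers at most `n ^ 2`, with
`s` joint cells of `w` bits computed by de Morgan formulas over functions with certificates of at
most `d` entries, with at most `T` probes and error probability at most `1 / 1000`; the mean of the
total number of leaves of the formulas is at most `L`. -/
def Solvable (n d w s T : ℕ) (L : ℝ) : Prop :=
  ∃ (Ω : Type) (_ : Fintype Ω) (p : Ω → ℝ) (D : Ω → DS n d w s), (∀ ω, 0 ≤ p ω) ∧ ∑ ω, p ω = 1 ∧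
    (∀ ω, (D ω).Within T) ∧ Solves p D ∧ ∑ ω, p ω * ((D ω).memory.size : ℝ) ≤ L

/-- (1) The bound for the mean of the total size of the formulas. (2) The bound for the number of
cells, if every bit has a formula with at most `l` leaves. -/
theorem result :
    (∀ (n d w s T : ℕ) (L : ℝ), 1 ≤ d → 1 ≤ w → 1 ≤ T → 1000 * (w * T) ≤ n →
      Solvable n d w s T L → (n : ℝ) ^ 2 ≤ 10 ^ 10 * (w * T * d) ^ 2 * L) ∧
    ∀ (n d w s T l : ℕ), 1 ≤ d → 1 ≤ w → 1 ≤ T → 1000 * (w * T) ≤ n →
      ∀ (Ω : Type) [Fintype Ω] (p : Ω → ℝ) (D : Ω → DS n d w s), (∀ ω, 0 ≤ p ω) → ∑ ω, p ω = 1 →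
      (∀ ω, (D ω).Within T) → Solves p D → (∀ ω c t, ((D ω).memory.formula c t).size ≤ l) →
      (n : ℝ) ^ 2 ≤ 10 ^ 10 * (T * d) ^ 2 * w ^ 3 * (s * l) := by
  have h1 : ∀ (n d w s T : ℕ) (L : ℝ), 1 ≤ d → 1 ≤ w → 1 ≤ T → 1000 * (w * T) ≤ n →
      Solvable n d w s T L → (n : ℝ) ^ 2 ≤ 10 ^ 10 * (w * T * d) ^ 2 * L := by
    rintro n d w s T L hd hw hT hn ⟨Ω, _, p, D, hp, hp1, hD, hs, hL⟩
    refine (sum_main hd hw hT hn p hp hp1 D hD hs).trans ?_
    calc (10 : ℝ) ^ 10 * (w * T) ^ 2 * ((d : ℝ) ^ 2 * ∑ ω, p ω * ((D ω).memory.size : ℝ)) ≤
        10 ^ 10 * (w * T) ^ 2 * ((d : ℝ) ^ 2 * L) := by gcongr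
      _ = _ := by ring
  refine ⟨h1, ?_⟩
  intro n d w s T l hd hw hT hn Ω _ p D hp hp1 hD hs hl
  have h2 : ∀ ω, ((D ω).memory.size : ℝ) ≤ s * (w * l) := by
    intro ω
    have h3 : (D ω).memory.size ≤ s * (w * l) := by
      unfold Memory.size
      calc ∑ c : Fin s, ∑ t : Fin w, ((D ω).memory.formula c t).size ≤
          ∑ c : Fin s, ∑ t : Fin w, l :=
            Finset.sum_le_sum fun c _ => Finset.sum_le_sum fun t _ => hl ω c t
        _ = s * (w * l) := by simp
    exact_mod_cast h3
  have h4 : ∑ ω, p ω * ((D ω).memory.size : ℝ) ≤ s * (w * l) := by
    calc ∑ ω, p ω * ((D ω).memory.size : ℝ) ≤ ∑ ω, p ω * (s * (w * l)) :=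
          Finset.sum_le_sum fun ω _ => mul_le_mul_of_nonneg_left (h2 ω) (hp ω)
      _ = _ := by rw [← Finset.sum_mul, hp1, one_mul]
  refine (h1 n d w s T _ hd hw hT hn ⟨Ω, _, p, D, hp, hp1, hD, hs, h4⟩).trans (le_of_eq ?_)
  ring

end Pool.Agent.Results.MP_e016b3_lc.FormulaMemory
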