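import Mathlib
import Pool.Agent.U286.LY.IdxAll

/-!
# 3SUM-Indexing for memories computed by narrow word circuits

Two arrays of `n` integers are preprocessed; here both are sorted, with distinct items between `0`
and `5 n` (`IsPair`), which makes the bound stronger. A data structure (`DS`) consists of a word
circuit (`Pool.Agent.Y631.Wc.WCirc`), which reads the items of both arrays, and whose gates compute
ARBITRARY functions of at most `κ` items and words of earlier gates. The memory holds the words of
ALL gates, and in addition ALL functions of one of the arrays alone (so sorting, hashing and
preprocessing the two arrays separately are free and unlimited). The query `z` reads words of the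
memory in `T` ADAPTIVE steps, with free computation, and answers whether `z` is the sum of an item
of the first array and an item of the second array (`IsSum`). The whole data structure is random
(`RandDS`), and every answer may be wrong with probability `1 / 3`.

The circuit has the width `c` (`WidthLE`) if the graph of its gates (the items are deleted, they can
be read everywhere) has treewidth less than `c`, or can be drawn in the plane with at most `c ^ 2`
gates and crossings. The number of gates is the space, so a width `n ^ (1 - ε)` in the second sense
means truly subquadratic space plus the condition that the number of crossings is truly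
subquadratic.

**Result.** Let the expected number of reads (wires from items to gates) be at most `r n`. Then the
expected width plus `T` is at least `n / (2 ^ (110000 r) (κ + 1) b)` for words of `b` bits. So with
`O (n)` reads and words of `O (log n)` bits, the preprocessing needs the width `c n / log n`, or the
queries need the time `c n / log n`; both are best possible up to powers of `log n`: the sorted
arrays can be scanned in time `O (n)`, and the table of all sums, which has `10 n` bits for these
arrays, is computed by the fast Fourier transform with `O (n)` reads and the width `O (n)`. If both
are at most `n ^ (1 - ε)` then the number of reads is `Ω (ε n log n)`. So this is a bound on how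
the memory is computed, not on the number of cells alone.

**Proof.** The places in the arrays are matched by a random shift; the item `u` of the first array
is `3 u + a`, an item of the second array is `6 M + 2 - 3 v - b`, with letters `a` and `b`, and the
query `6 M + 2 - 3 s` for the shift `s` is a sum iff two sets intersect. The circuit is divided into
parts with few items each by removing `O (c)` gates for each of them; after a random choice of
sides for the parts, `m / C ^ r` matched pairs of places are separated. For fixed words at the
removed gates, the word at EVERY gate is constant on the rectangles of pairs of inputs of the two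
sides, so every step of the adaptive procedure divides each rectangle into `2 ^ b` rectangles.
Razborov's corruption bound is applied to this partition, after the error has been reduced by the
majority of 160 data structures which are divided separately, and after the shift and the fixing of
all other items have been chosen by weights.
-/

set_option autoImplicit false

namespace Pool.Agent.Results.MP_e016b3_lc.NarrowPreprocessing

open Pool.Agent.Y631.Wc Pool.Agent.U286.LY

/-- (1) Let `D` be a random data structure for 3SUM-Indexing (sorted arrays of `n` items between `0`
and `5 n`) with `T` adaptive steps for each query, whose preprocessing circuits have fan-in at most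
`κ`, words of `b ≥ 1` bits and the width `c ω`; every answer is wrong with probability at most
`1 / 3`. If the expected number of reads is at most `r n`, `r ≥ 1`, then
`n ≤ 2 ^ (110000 r) (κ + 1) b (E c + T)`.

(2) For all `a`, `κ`, `ε > 0` and all large `n`: if such a random data structure has at most `n ^ a`
words, the expected width is at most `n ^ (1 - ε)` and `T ≤ n ^ (1 - ε)`, then the expected number
of reads is at least `(ε / 440000) n log₂ n`. -/
theorem result :
    (∀ {n r κ b T : ℕ}, 1 ≤ r → 1 ≤ b → ∀ {Z : Type} [Fintype Z], Fintype.card Z ≤ 2 ^ b →
      ∀ {Ω : Type} [Fintype Ω] (p : Ω → ℝ) (D : Ω → DS n T ℤ Z ℤ) (c : Ω → ℕ),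
      RandDS IsPair IsSum κ p D → (∀ ω, WidthLE (D ω).circ (c ω)) →
      mean p (fun ω => (D ω).circ.reads) ≤ r * n →
      (n : ℝ) ≤ 2 ^ (110000 * r) * ((κ + 1) * b * (mean p c + T))) ∧
    ∀ (a κ : ℕ) (ε : ℝ), 0 < ε → ∃ n₀ : ℕ, ∀ n ≥ n₀, ∀ T : ℕ, (T : ℝ) ≤ (n : ℝ) ^ (1 - ε) →
      ∀ (Z : Type) [Fintype Z], Fintype.card Z ≤ n ^ a → ∀ (Ω : Type) [Fintype Ω] (p : Ω → ℝ)
      (D : Ω → DS n T ℤ Z ℤ) (c : Ω → ℕ), RandDS IsPair IsSum κ p D →
      (∀ ω, WidthLE (D ω).circ (c ω)) → mean p c ≤ (n : ℝ) ^ (1 - ε) →
      ε / 440000 * (n * Real.logb 2 n) ≤ mean p fun ω => (D ω).circ.reads := by
  refine ⟨?_, ?_⟩
  · intro n r κ b T hr hb Z _ hZ Ω _ p D c h hc hR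
    exact all_idx (n₀ := 100) (by norm_num) (fun hn => idx_inst (by omega)) hr hb hZ p D h hR c hc
  · intro a κ ε hε
    obtain ⟨n₀, hn₀⟩ := reads_idx (X := ℤ) (Qu := ℤ) a κ ε hε
    refine ⟨max n₀ 100, fun n hn T hT Z _ hZ Ω _ p D c h hc hcT => ?_⟩
    have hn1 := (le_max_left _ _).trans hn
    have hn2 := (le_max_right _ _).trans hn
    exact hn₀ n hn1 _ _ (idx_inst (by omega)) T hT Z hZ Ω p D c h hc hcT

end Pool.Agent.Results.MP_e016b3_lc.NarrowPreprocessing
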