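import Mathlib
import Pool.Agent.U514.DSM.Width
import Pool.Agent.U286.LY.IdxAll

/-!
# 3SUM-Indexing: the preprocessing circuits contain every graph as a minor

Two arrays of `n` integers are preprocessed; here both are sorted, with distinct items between `0`
and `5 n` (`IsPair`), which makes the bound stronger. A data structure (`Pool.Agent.U286.LY.DS`)
consists of a word circuit (`Pool.Agent.Y631.Wc.WCirc`), which reads the items of both arrays, and
whose gates compute ARBITRARY functions of at most `κ` items and words of earlier gates. The memory
holds the words of ALL gates, and in addition ALL functions of one of the arrays alone. The query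
`z` reads words of the memory in `T` ADAPTIVE steps, with free computation, and answers whether `z`
is the sum of an item of the first array and an item of the second array (`IsSum`). The whole data
structure is random (`RandDS`), and every answer may be wrong with probability `1 / 3`.

The graph of the gates (`gateGraph`) has the gates as vertices and the wires between gates as edges;
the items, and the wires from them, are deleted. `HasMinor G H d`: there are pairwise disjoint sets
of vertices of `G`, one for each vertex of `H`, each with a centre from which it can be reached by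
walks of length at most `d` inside of the set, and an edge of `G` between the sets of adjacent
vertices of `H`. `Universal G M d`: this holds for EVERY graph `H` with at most `M` vertices and at
most `M` edges.

**Result.** Let the space be `n ^ (1 + η)` with `η < 1` (truly subquadratic), the time `T` at most
`n ^ (1 - ε)`, and the number of reads (wires from items to gates) less than `c ε n log n`. Then with
probability at least `n ^ (-η - ε)` the graph of the gates contains every graph with at most
`n ^ (1 - η - ε)` vertices and edges as a minor with branch sets of radius `n ^ (η + ε)`. In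
particular a deterministic preprocessing of this kind always does; so no minor closed class of graphs
(planar graphs, graphs of bounded genus, ...) contains its graphs for large `n`.

**Proof.** A graph with `s` vertices which is not universal for `M` edges with radius
`√(s log s / M)` has treewidth `O (√(M s log s))` (`Pool.Agent.U514.MU.treewidth_of_not_universal`, found
for `MP_885423_lc.MinorUniversality`). The bound of `MP_e016b3_lc.NarrowPreprocessing` for the mean
treewidth (`Pool.Agent.U286.LY.all_idx`) is applied to the width which is this number for the circuits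
which are not universal and the number of gates for the others.
-/

set_option autoImplicit false

namespace Pool.Agent.Results.MP_e016b3_lc.PreprocessingMinors

open Pool.Agent.Y631.Wc Pool.Agent.U286.LY Pool.Agent.U514.MU Pool.Agent.U514.DSM
open Pool.Agent.U514.PD.W (gateGraph)

/-- Let `D` be a random data structure for 3SUM-Indexing (sorted arrays of `n` items between `0` and
`5 n`) with `T` adaptive steps for each query, whose preprocessing circuits have fan-in at most
`κ` and words of `b ≥ 1` bits (at most `n ^ a` words in (2)); every answer is wrong with probability at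
most `1 / 3`.

(1) If every circuit has at most `s` gates, `M ≥ 1`, `4 (⌊log₂ s⌋ + 1) s ≤ M d ^ 2` and the expected
number of reads is at most `r n`, `r ≥ 1`, then
`n ≤ 2 ^ (110000 r) (κ + 1) b (28 + 24 √(M (⌊log₂ s⌋ + 1) s) + P (s + 1) + T)`, where `P` is the
probability that the graph of the gates contains every graph with at most `M` vertices and at most
`M` edges as a minor with branch sets of radius at most `d`.

(2) For all `a`, `κ`, `η ≥ 0`, `ε > 0` with `η + ε ≤ 1` and all large `n`: if the circuits have at most
`n ^ (1 + η)` gates, `T ≤ n ^ (1 - ε / 7)` and the expected number of reads is less than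
`(ε / 3080000) n log₂ n`, then with probability more than `n ^ (-(η + ε))` the graph of the gates
contains every graph with at most `n ^ (1 - η - ε)` vertices and at most `n ^ (1 - η - ε)` edges as a
minor with branch sets of radius at most `n ^ (η + ε)`. -/
theorem result :
    (∀ {n r κ b T M d s : ℕ}, 1 ≤ r → 1 ≤ b → 1 ≤ M → ∀ {Z : Type} [Fintype Z],
      Fintype.card Z ≤ 2 ^ b →
      ∀ {Ω : Type} [Fintype Ω] (p : Ω → ℝ) (D : Ω → DS n T ℤ Z ℤ), RandDS IsPair IsSum κ p D →
      (∀ ω, (D ω).circ.size ≤ s) → 4 * (Nat.log 2 s + 1) * s ≤ M * d ^ 2 →
      mean p (fun ω => (D ω).circ.reads) ≤ r * n →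
      (n : ℝ) ≤ 2 ^ (110000 * r) * ((κ + 1) * b *
        (28 + 24 * Real.sqrt (M * (Nat.log 2 s + 1) * s) +
          universalProb p (fun ω => (D ω).circ) M d * (s + 1) + T))) ∧
    ∀ (a κ : ℕ) (η ε : ℝ), 0 ≤ η → 0 < ε → η + ε ≤ 1 → ∃ n₀ : ℕ, ∀ n ≥ n₀, ∀ T : ℕ,
      (T : ℝ) ≤ (n : ℝ) ^ (1 - ε / 7) → ∀ (Z : Type) [Fintype Z], Fintype.card Z ≤ n ^ a →
      ∀ (Ω : Type) [Fintype Ω] (p : Ω → ℝ) (D : Ω → DS n T ℤ Z ℤ), RandDS IsPair IsSum κ p D →
      (∀ ω, ((D ω).circ.size : ℝ) ≤ (n : ℝ) ^ (1 + η)) →
      mean p (fun ω => (D ω).circ.reads) < ε / 3080000 * (n * Real.logb 2 n) →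
      (n : ℝ) ^ (-(η + ε)) <
        minorProb p (fun ω => (D ω).circ) ((n : ℝ) ^ (1 - η - ε)) ⌊(n : ℝ) ^ (η + ε)⌋₊ := by
  refine ⟨?_, ?_⟩
  · intro n r κ b T M d s hr hb hM Z _ hZ Ω _ p D h hs hd hR
    obtain ⟨c, hc1, hc2⟩ := width_universal p h.nonneg h.total (fun ω => (D ω).circ) hM hs hd
    refine (all_idx (n₀ := 100) (by norm_num) (fun hn => idx_inst (by omega)) hr hb hZ p D h hR c
      hc1).trans ?_
    gcongr
  · intro a κ η ε hη hε hηε
    obtain ⟨n₁, hn₁⟩ := reads_idx (X := ℤ) (Qu := ℤ) a κ (ε / 7) (by positivity)
    obtain ⟨n₂, hn₂⟩ := width_minors η ε hη hε hηε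
    refine ⟨max (max n₁ n₂) 100, fun n hn T hT Z _ hZ Ω _ p D h hs hR => ?_⟩
    have a1 : n₁ ≤ n := ((le_max_left _ _).trans (le_max_left _ _)).trans hn
    have a2 : n₂ ≤ n := ((le_max_right _ _).trans (le_max_left _ _)).trans hn
    have a3 : 100 ≤ n := (le_max_right _ _).trans hn
    by_contra hcon
    push Not at hcon
    obtain ⟨c, hc1, hc2⟩ := hn₂ n a2 p h.nonneg h.total (fun ω => (D ω).circ) hs hcon
    have h1 := hn₁ n a1 _ _ (idx_inst (by omega)) T hT Z hZ Ω p D c h hc1 hc2
    have h2 : ε / 7 / 440000 * (n * Real.logb 2 n) = ε / 3080000 * (n * Real.logb 2 n) := by ring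
    rw [h2] at h1
    exact absurd hR (not_lt.2 h1)

end Pool.Agent.Results.MP_e016b3_lc.PreprocessingMinors
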